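import Pool.Agent.H97.SDG.Targets

/-!
Module CNG of the third part of the project SD on `MP_c62aed_lc`: counting the restrictions.
-/

set_option autoImplicit false

open Finset

namespace Pool.Agent.H9.SDG

open Pool.Agent.H97.SD Pool.Agent.H97.SDQ Pool.Agent.H97.SDG

/-- The part of a clause in the block `j`. -/
def Cj {N a b : ℕ} (C : Clause (BV N a b)) (j : Fin N) : Finset ((Fin a × Fin b) × Bool) :=
  univ.filter (fun l => ((j, l.1), l.2) ∈ C)

open Classical in
theorem card_even {a b : ℕ} (hPAT : P_PAT) (hb : 1 ≤ b) :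
    ((univ : Finset (Fin a × Fin b → Bool)).filter EvenB).card = 2 ^ ((b - 1) * a) := by
  have h1 : ((univ : Finset (Fin a × Fin b → Bool)).filter EvenB).card =
      (Fintype.piFinset (fun _ : Fin a => (univ.filter (fun π : Fin b → Bool =>
        Even (univ.filter (fun i => π i = true)).card)))).card := by
    refine Finset.card_bij' (fun β _ => fun g i => β (g, i)) (fun π _ => fun v => π v.1 v.2)
      ?_ ?_ ?_ ?_
    · intro β hβ
      rw [Finset.mem_filter] at hβ
      rw [Fintype.mem_piFinset]
      intro g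
      rw [Finset.mem_filter]
      exact ⟨Finset.mem_univ _, hβ.2 g⟩
    · intro π hπ
      rw [Fintype.mem_piFinset] at hπ
      rw [Finset.mem_filter]
      exact ⟨Finset.mem_univ _, fun g => (Finset.mem_filter.1 (hπ g)).2⟩
    · intro β _
      rfl
    · intro π _
      rfl
  rw [h1, Fintype.card_piFinset]
  rw [Finset.prod_congr rfl fun _ _ => (hPAT b hb).1, Finset.prod_const, Finset.card_univ,
    Fintype.card_fin, ← pow_mul]

open Classical in
theorem pf_CNG (hPAT : P_PAT) (hKEG : P_KEG) : P_CNG := by
  intro N a b S W line ha hb hall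
  have hb1 : 1 ≤ b := by omega
  obtain ⟨E, hE⟩ : ∃ E, E = 2 ^ ((b - 1) * a) := ⟨_, rfl⟩
  have hEpos : 0 < E := by rw [hE]; positivity
  have hab : 2 ≤ a * b := by nlinarith
  -- the pairs of one block
  obtain ⟨T, hT⟩ : ∃ T : Finset ((Fin a × Fin b → Bool) × (Fin a × Fin b)),
      T = univ.filter (fun z => EvenB z.1) := ⟨_, rfl⟩
  have hTc : T.card = E * (a * b) := by
    have h1 : T = (univ.filter EvenB) ×ˢ (univ : Finset (Fin a × Fin b)) := by
      rw [hT]
      ext z
      simp [Finset.mem_product]
    rw [h1, Finset.card_product, card_even hPAT hb1, ← hE, Finset.card_univ, Fintype.card_prod,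
      Fintype.card_fin, Fintype.card_fin]
  obtain ⟨K, hK⟩ : ∃ K : Finset ((Fin a × Fin b) × Bool) →
      Finset ((Fin a × Fin b → Bool) × (Fin a × Fin b)), ∀ C, K C =
      univ.filter (fun z => EvenB z.1 ∧ z.2 ∈ C.image Prod.fst ∧
        ∀ l ∈ C, l.1 ≠ z.2 → z.1 l.1 ≠ l.2) := ⟨_, fun _ => rfl⟩
  have hKc : ∀ C, (K C).card ≤ 2 * E := by
    intro C
    rw [hK, hE]
    exact hKEG a b C hb
  -- the product sets
  obtain ⟨PS, hPS⟩ : ∃ PS : Finset (Fin N) → ℕ → Finset (Fin N → (Fin a × Fin b → Bool) ×
      (Fin a × Fin b)), ∀ U i, PS U i = Fintype.piFinset (fun j => if j ∈ U then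
        K (Cj (line i) j) else T) := ⟨_, fun _ _ => rfl⟩
  have hPSc : ∀ U i, (PS U i).card ≤ (2 * E) ^ U.card * (E * (a * b)) ^ (N - U.card) := by
    intro U i
    rw [hPS, Fintype.card_piFinset]
    have h1 : ∀ j : Fin N, (if j ∈ U then K (Cj (line i) j) else T).card ≤
        if j ∈ U then 2 * E else E * (a * b) := by
      intro j
      split_ifs
      · exact hKc _
      · exact hTc.le
    refine (Finset.prod_le_prod' fun j _ => h1 j).trans (le_of_eq ?_)
    rw [Finset.prod_ite, Finset.prod_const, Finset.prod_const]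
    have h2 : (univ.filter (fun j => j ∈ U)) = U := by
      ext j
      simp
    have h3 : (univ.filter (fun j => ¬ j ∈ U)).card = N - U.card := by
      have h4 : (univ.filter (fun j => ¬ j ∈ U)) = Uᶜ := by
        ext j
        simp
      rw [h4, Finset.card_compl, Fintype.card_fin]
    rw [h2, h3]
  have hcov : Fintype.piFinset (fun _ : Fin N => T) ⊆
      (Finset.range S).biUnion (fun i =>
        ((univ : Finset (Finset (Fin N))).filter (fun U => W ≤ U.card)).biUnion
          (fun U => PS U i)) := by
    intro z hz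
    rw [Fintype.mem_piFinset] at hz
    obtain ⟨i, hi, ⟨O, hO⟩, hW⟩ := hall (fun v => (z v.1).1 v.2) (fun j => (z j).2) (by
      intro j g
      have h1 := hz j
      rw [hT, Finset.mem_filter] at h1
      exact h1.2 g)
    rw [Finset.mem_biUnion]
    refine ⟨i, Finset.mem_range.2 hi, ?_⟩
    rw [Finset.mem_biUnion]
    refine ⟨_, Finset.mem_filter.2 ⟨Finset.mem_univ _, hW⟩, ?_⟩
    rw [hPS, Fintype.mem_piFinset]
    intro j
    split_ifs with hj
    · rw [hK, Finset.mem_filter]
      have h1 := hz j
      rw [hT, Finset.mem_filter] at h1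
      refine ⟨Finset.mem_univ _, h1.2, ?_, ?_⟩
      · unfold alive at hj
        rw [Finset.mem_filter, Finset.mem_image] at hj
        obtain ⟨-, l, hl, hl2⟩ := hj
        rw [Finset.mem_image]
        refine ⟨((z j).2, l.2), ?_, rfl⟩
        unfold Cj
        rw [Finset.mem_filter]
        refine ⟨Finset.mem_univ _, ?_⟩
        change ((j, (z j).2), l.2) ∈ line i
        rw [← hl2]
        exact hl
      · intro l hl hne
        unfold Cj at hl
        rw [Finset.mem_filter] at hl
        have h2 := hO _ hl.2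
        change flp (fun v => (z v.1).1 v.2) (fun j => (z j).2) O (j, l.1) ≠ l.2 at h2
        unfold flp at h2
        rw [if_neg (fun h3 => hne h3.2)] at h2
        exact h2
    · exact hz j
  have hcount : (E * (a * b)) ^ N ≤ S * ∑ U ∈ (univ : Finset (Finset (Fin N))).filter
      (fun U => W ≤ U.card), (2 * E) ^ U.card * (E * (a * b)) ^ (N - U.card) := by
    have h1 : (Fintype.piFinset (fun _ : Fin N => T)).card = (E * (a * b)) ^ N := by
      rw [Fintype.card_piFinset, Finset.prod_const, hTc, Finset.card_univ, Fintype.card_fin]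
    rw [← h1]
    refine (Finset.card_le_card hcov).trans (Finset.card_biUnion_le.trans ?_)
    have h2 : ∀ i ∈ Finset.range S, (((univ : Finset (Finset (Fin N))).filter
        (fun U => W ≤ U.card)).biUnion (fun U => PS U i)).card ≤
        ∑ U ∈ (univ : Finset (Finset (Fin N))).filter (fun U => W ≤ U.card),
          (2 * E) ^ U.card * (E * (a * b)) ^ (N - U.card) := by
      intro i _
      exact Finset.card_biUnion_le.trans (Finset.sum_le_sum fun U _ => hPSc U i)
    refine (Finset.sum_le_sum h2).trans (le_of_eq ?_)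
    rw [Finset.sum_const, Finset.card_range, smul_eq_mul]
  have hterm : ∀ U ∈ (univ : Finset (Finset (Fin N))).filter (fun U => W ≤ U.card),
      (a * b) ^ W * ((2 * E) ^ U.card * (E * (a * b)) ^ (N - U.card)) ≤
        2 ^ W * (E * (a * b)) ^ N := by
    intro U hU
    have hW : W ≤ U.card := (Finset.mem_filter.1 hU).2
    have hUN : U.card ≤ N := by
      have := Finset.card_le_univ U
      rwa [Fintype.card_fin] at this
    obtain ⟨d, hd⟩ := Nat.exists_eq_add_of_le hW
    obtain ⟨m, hm⟩ := Nat.exists_eq_add_of_le hUN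
    have h1 : N - U.card = m := by omega
    rw [h1]
    have h2 : (2 : ℕ) ^ d ≤ (a * b) ^ d := Nat.pow_le_pow_left hab d
    calc (a * b) ^ W * ((2 * E) ^ U.card * (E * (a * b)) ^ m)
        = 2 ^ W * ((a * b) ^ W * (2 ^ d * (E ^ U.card * (E ^ m * (a * b) ^ m)))) := by
          rw [mul_pow, mul_pow, hd, pow_add 2 W d]
          ring
      _ ≤ 2 ^ W * ((a * b) ^ W * ((a * b) ^ d * (E ^ U.card * (E ^ m * (a * b) ^ m)))) := by
          gcongr
      _ = 2 ^ W * (E * (a * b)) ^ N := by
          have h3 : (E * (a * b)) ^ N = (E * (a * b)) ^ (W + d + m) :=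
            congrArg (fun x => (E * (a * b)) ^ x) (by omega)
          rw [h3, hd]
          ring
  have hfin : (a * b) ^ W * (E * (a * b)) ^ N ≤ (S * 2 ^ N * 2 ^ W) * (E * (a * b)) ^ N := by
    calc (a * b) ^ W * (E * (a * b)) ^ N
        ≤ (a * b) ^ W * (S * ∑ U ∈ (univ : Finset (Finset (Fin N))).filter
          (fun U => W ≤ U.card), (2 * E) ^ U.card * (E * (a * b)) ^ (N - U.card)) :=
          Nat.mul_le_mul_left _ hcount
      _ = S * ∑ U ∈ (univ : Finset (Finset (Fin N))).filter
          (fun U => W ≤ U.card), (a * b) ^ W * ((2 * E) ^ U.card * (E * (a * b)) ^ (N - U.card)) := by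
          rw [← Finset.mul_sum]
          ring
      _ ≤ S * ∑ U ∈ (univ : Finset (Finset (Fin N))).filter
          (fun U => W ≤ U.card), 2 ^ W * (E * (a * b)) ^ N :=
          Nat.mul_le_mul_left _ (Finset.sum_le_sum hterm)
      _ = S * (((univ : Finset (Finset (Fin N))).filter (fun U => W ≤ U.card)).card *
          (2 ^ W * (E * (a * b)) ^ N)) := by
          rw [Finset.sum_const, smul_eq_mul]
      _ ≤ S * (2 ^ N * (2 ^ W * (E * (a * b)) ^ N)) := by
          refine Nat.mul_le_mul_left _ (Nat.mul_le_mul_right _ ?_)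
          have h5 := Finset.card_le_univ
            ((univ : Finset (Finset (Fin N))).filter (fun U => W ≤ U.card))
          rwa [Fintype.card_finset, Fintype.card_fin] at h5
      _ = (S * 2 ^ N * 2 ^ W) * (E * (a * b)) ^ N := by ring
  exact Nat.le_of_mul_le_mul_right hfin (by positivity)

end Pool.Agent.H9.SDG
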