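import Pool.Agent.H97.SDG.Targets

/-!
Module SAG of the third part of the project SD on `MP_c62aed_lc`: small sets of constraints are
satisfiable.
-/

set_option autoImplicit false

open Finset

namespace Pool.Agent.H9.SDG

open Pool.Agent.H97.SD Pool.Agent.H97.SDQ Pool.Agent.H97.SDG

theorem pf_SAG (hHAL : P_HAL) (hFIX : P_FIX) : P_SAG := by
  intro N M k σ h p r hN hr hE J hJ
  have hout : ∀ c ∈ J, r ≤ out σ c ∅ := by
    intro c _
    have h1 : out σ c ∅ = k := by
      unfold out
      rw [Finset.filter_true_of_mem (fun i _ => Finset.notMem_empty _), Finset.card_univ,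
        Fintype.card_fin]
    rw [h1]
    exact hr
  obtain ⟨z, hz, hz'⟩ := hHAL N M k σ p r hN hE J ∅ hJ hout
  obtain ⟨T, -, hT⟩ := hFIX N M k σ h ∅ J z hz hz'
  exact ⟨_, hT⟩

end Pool.Agent.H9.SDG
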